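import Pool.Agent.N869.GK.L.Stm

/-!
# Project GK, part SPLIT: sums over all unlinked decorations
-/

set_option autoImplicit false
set_option linter.unusedVariables false
set_option linter.unusedSectionVars false

open scoped Classical

namespace Pool.Agent.N7.GK.Split

open Finset
open Pool.Agent.N869.QT.L (prs ext Lc Fam)
open Pool.Agent.N869.GK

lemma om_zero (v : V) : om v 0 = 0 := by
  simp [om]

lemma Qs_self {ι : Type} (B : Finset ι) (ζ : Dc ι) : Qs B ζ ζ = 0 := by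
  unfold Qs
  refine sum_eq_zero fun x _ => ?_
  have h1 : (ζ x).1 + (ζ x).1 = 0 := by
    funext i
    exact CharTwo.add_self_eq_zero _
  rw [h1, om_zero]

section main

variable {ι I Q J : Type} [Fintype ι] [Fintype I] [Fintype Q] [Fintype J]

/-- the values at the large primes of the colour `q` -/
noncomputable def Rz (g : J → Q) (ζ : J → Dc ι) (q : Q) : Finset (Dc ι) :=
  (univ.filter fun k => g k = q).image ζ

lemma mem_Rz (g : J → Q) (ζ : J → Dc ι) (k : J) : ζ k ∈ Rz g ζ (g k) := by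
  unfold Rz
  exact mem_image_of_mem _ (mem_filter.2 ⟨mem_univ _, rfl⟩)

lemma Rz_sub {g : J → Q} {ζ : J → Dc ι} {P : Q → Finset (Dc ι)} (h : ∀ k, ζ k ∈ P (g k)) (q : Q) :
    Rz g ζ q ⊆ P q := by
  intro x hx
  unfold Rz at hx
  rw [mem_image] at hx
  obtain ⟨k, hk, rfl⟩ := hx
  rw [← (mem_filter.1 hk).2]
  exact h k

omit [Fintype Q] [Fintype J] in
lemma mem_Sp (B : Finset ι) (ζ : Dc ι) : ζ ∈ Sp B ↔ ∀ x, x ∉ B → ζ x = 0 := by
  unfold Sp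
  rw [mem_filter]
  exact and_iff_right (mem_univ _)

omit [Fintype Q] [Fintype J] in
lemma mem_PZ (c : ι → I) (Y : I → Finset (Dc ι)) (P : I → Prop) (ζ : Dc ι) :
    ζ ∈ PZ c Y P ↔ (∀ x, ¬ P (c x) → ζ x = 0) ∧ ∀ a, P a → rs c a ζ ∈ Y a := by
  unfold PZ
  rw [mem_filter, mem_Sp]
  simp only [mem_filter, mem_univ, true_and]

omit [Fintype Q] [Fintype J] in
lemma PZ_sub (E : I → Finset Q) (c : ι → I) (Y : I → Finset (Dc ι)) (q : Q) {ζ : Dc ι}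
    (h : ζ ∈ PZ c Y fun a => q ∈ E a) : ζ ∈ Sp (Aq E c q) := by
  rw [mem_PZ] at h
  rw [mem_Sp]
  intro x hx
  apply h.1
  intro h2
  apply hx
  unfold Aq
  rw [mem_filter]
  exact ⟨mem_univ _, h2⟩

/-- the families which are not full -/
noncomputable def GG (E : I → Finset Q) (c : ι → I) : Finset (Q → Finset (Dc ι)) :=
  univ.filter fun R => (∀ q, (R q).card ≤ 4 ^ (Aq E c q).card) ∧
    ∃ q, (R q).card < 4 ^ (Aq E c q).card

lemma prod_le (E : I → Finset Q) (c : ι → I) (g : J → Q) (L : ℕ)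
    (hL : ∀ q, L ≤ (univ.filter fun k => g k = q).card) {R : Q → Finset (Dc ι)} (hR : R ∈ GG E c) :
    ((∏ k, (R (g k)).card : ℕ) : ℝ) ≤
      (1 - (1 / 4 : ℝ) ^ Fintype.card ι) ^ L * ∏ k, (4 : ℝ) ^ (Aq E c (g k)).card := by
  obtain ⟨h1, q0, h2⟩ := (mem_filter.1 hR).2
  set β : ℝ := 1 - (1 / 4 : ℝ) ^ Fintype.card ι with hβ
  have hp1 : (1 / 4 : ℝ) ^ Fintype.card ι ≤ 1 := pow_le_one₀ (by norm_num) (by norm_num)
  have hp0 : (0 : ℝ) < (1 / 4 : ℝ) ^ Fintype.card ι := by positivity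
  have hβ0 : 0 ≤ β := by rw [hβ]; linarith
  have hβ1 : β ≤ 1 := by rw [hβ]; linarith
  have key : ∀ k, ((R (g k)).card : ℝ) ≤
      (if g k = q0 then β else 1) * (4 : ℝ) ^ (Aq E c (g k)).card := by
    intro k
    split_ifs with hk
    · rw [hk]
      have h3 : ((R q0).card : ℝ) + 1 ≤ (4 : ℝ) ^ (Aq E c q0).card := by
        exact_mod_cast h2
      have h4 : (1 / 4 : ℝ) ^ Fintype.card ι * (4 : ℝ) ^ (Aq E c q0).card ≤ 1 := by
        have h5 : (4 : ℝ) ^ (Aq E c q0).card ≤ 4 ^ Fintype.card ι := by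
          refine pow_le_pow_right₀ (by norm_num) ?_
          exact card_le_univ _
        calc (1 / 4 : ℝ) ^ Fintype.card ι * (4 : ℝ) ^ (Aq E c q0).card ≤
              (1 / 4 : ℝ) ^ Fintype.card ι * 4 ^ Fintype.card ι :=
              mul_le_mul_of_nonneg_left h5 hp0.le
          _ = 1 := by rw [← mul_pow]; norm_num
      rw [hβ, sub_mul, one_mul]
      linarith
    · rw [one_mul]
      exact_mod_cast h1 (g k)
  have h3 : ((∏ k, (R (g k)).card : ℕ) : ℝ) ≤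
      ∏ k, ((if g k = q0 then β else 1) * (4 : ℝ) ^ (Aq E c (g k)).card) := by
    rw [Nat.cast_prod]
    exact prod_le_prod (fun k _ => Nat.cast_nonneg _) fun k _ => key k
  refine h3.trans ?_
  rw [prod_mul_distrib]
  refine mul_le_mul_of_nonneg_right ?_ (prod_nonneg fun k _ => by positivity)
  rw [prod_ite, prod_const, prod_const_one, mul_one]
  exact pow_le_pow_of_le_one hβ0 hβ1 (hL q0)

lemma sum_le (E : I → Finset Q) (c : ι → I) (g : J → Q) (F : (J → Dc ι) → ℝ) (M : ℝ) (L : ℕ)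
    (hF : ∀ ζ, |F ζ| ≤ M) (hL : ∀ q, L ≤ (univ.filter fun k => g k = q).card)
    (S : Finset (J → Dc ι)) (hS : ∀ ζ ∈ S, Rz g ζ ∈ GG E c) :
    |∑ ζ ∈ S, F ζ| ≤ (GG E c).card * (M * ((1 - (1 / 4 : ℝ) ^ Fintype.card ι) ^ L *
      ∏ k, (4 : ℝ) ^ (Aq E c (g k)).card)) := by
  have hM : 0 ≤ M := (abs_nonneg _).trans (hF fun _ => 0)
  have h1 : |∑ ζ ∈ S, F ζ| ≤ S.card * M := by
    refine (abs_sum_le_sum_abs _ _).trans ?_
    refine (sum_le_sum fun ζ _ => hF ζ).trans ?_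
    rw [sum_const, nsmul_eq_mul]
  have h2 : S ⊆ (GG E c).biUnion fun R => Fintype.piFinset fun k => R (g k) := by
    intro ζ hζ
    rw [mem_biUnion]
    refine ⟨Rz g ζ, hS ζ hζ, ?_⟩
    rw [Fintype.mem_piFinset]
    exact fun k => mem_Rz g ζ k
  have h3 : (S.card : ℝ) ≤ ∑ R ∈ GG E c, ((∏ k, (R (g k)).card : ℕ) : ℝ) := by
    have h4 := (card_le_card h2).trans card_biUnion_le
    have h5 : ∑ R ∈ GG E c, (Fintype.piFinset fun k => R (g k)).card =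
        ∑ R ∈ GG E c, ∏ k, (R (g k)).card := by
      refine sum_congr rfl fun R _ => ?_
      rw [Fintype.card_piFinset]
    rw [h5] at h4
    exact_mod_cast h4
  have h6 : (S.card : ℝ) ≤ (GG E c).card * ((1 - (1 / 4 : ℝ) ^ Fintype.card ι) ^ L *
      ∏ k, (4 : ℝ) ^ (Aq E c (g k)).card) := by
    refine h3.trans ((sum_le_sum fun R hR => prod_le E c g L hL hR).trans ?_)
    rw [sum_const, nsmul_eq_mul]
  calc |∑ ζ ∈ S, F ζ| ≤ S.card * M := h1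
    _ ≤ (GG E c).card * ((1 - (1 / 4 : ℝ) ^ Fintype.card ι) ^ L *
      ∏ k, (4 : ℝ) ^ (Aq E c (g k)).card) * M := mul_le_mul_of_nonneg_right h6 hM
    _ = _ := by ring

end main

theorem t_SPLIT : S_SPLIT := by
  intro hU hFAM ι I Q _ _ _ E c hE
  obtain ⟨f1, f2, f3⟩ := hFAM hU ι I Q E c hE
  refine ⟨(GG E c).card * (1 + (univ.filter (fun Y : I → Finset (Dc ι) =>
    ∀ a, MS (cp c a) (Y a))).card), by positivity, ?_⟩
  intro J _ g F M L hF hL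
  have hM : 0 ≤ M := (abs_nonneg _).trans (hF fun _ => 0)
  set 𝒴 : Finset (I → Finset (Dc ι)) :=
    univ.filter (fun Y : I → Finset (Dc ι) => ∀ a, MS (cp c a) (Y a)) with h𝒴
  set 𝒰 : Finset (J → Dc ι) := univ.filter (fun ζ : J → Dc ι =>
    (∀ k, ζ k ∈ Sp (Aq E c (g k))) ∧
      ∀ k l, k ≠ l → Qs (Aq E c (g k) ∩ Aq E c (g l)) (ζ k) (ζ l) = 0) with h𝒰
  set PP : (I → Finset (Dc ι)) → Finset (J → Dc ι) := fun Y =>
    Fintype.piFinset (fun k => PZ c Y fun a => g k ∈ E a) with hPP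
  set B : ℝ := M * ((1 - (1 / 4 : ℝ) ^ Fintype.card ι) ^ L *
      ∏ k, (4 : ℝ) ^ (Aq E c (g k)).card) with hB
  set full : (J → Dc ι) → Prop := fun ζ => ∀ q, (Rz g ζ q).card = 4 ^ (Aq E c q).card with hfull
  have mem𝒴 : ∀ Y, Y ∈ 𝒴 ↔ ∀ a, MS (cp c a) (Y a) := by
    intro Y
    rw [h𝒴, mem_filter]
    exact and_iff_right (mem_univ _)
  have mem𝒰 : ∀ ζ, ζ ∈ 𝒰 ↔ (∀ k, ζ k ∈ Sp (Aq E c (g k))) ∧
      ∀ k l, k ≠ l → Qs (Aq E c (g k) ∩ Aq E c (g l)) (ζ k) (ζ l) = 0 := by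
    intro ζ
    rw [h𝒰, mem_filter]
    exact and_iff_right (mem_univ _)
  have memPP : ∀ Y ζ, ζ ∈ PP Y ↔ ∀ k, ζ k ∈ PZ c Y fun a => g k ∈ E a := by
    intro Y ζ
    exact Fintype.mem_piFinset
  -- unlinked families of images
  have hR1 : ∀ ζ ∈ 𝒰, ∀ q, Rz g ζ q ⊆ Sp (Aq E c q) := by
    intro ζ hζ q
    exact Rz_sub (P := fun q => Sp (Aq E c q)) ((mem𝒰 ζ).1 hζ).1 q
  have hR2 : ∀ ζ ∈ 𝒰, ∀ q q', ∀ x ∈ Rz g ζ q, ∀ x' ∈ Rz g ζ q',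
      Qs (Aq E c q ∩ Aq E c q') x x' = 0 := by
    intro ζ hζ q q' x hx x' hx'
    unfold Rz at hx hx'
    rw [mem_image] at hx hx'
    obtain ⟨k, hk, rfl⟩ := hx
    obtain ⟨l, hl, rfl⟩ := hx'
    rw [← (mem_filter.1 hk).2, ← (mem_filter.1 hl).2]
    by_cases hkl : k = l
    · subst hkl
      exact Qs_self _ _
    · exact ((mem𝒰 ζ).1 hζ).2 k l hkl
  have hR3 : ∀ ζ ∈ 𝒰, ∀ q, (Rz g ζ q).card ≤ 4 ^ (Aq E c q).card := by
    intro ζ hζ q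
    refine (hU ι (Aq E c q)).1 _ (hR1 ζ hζ q) ?_
    intro x hx x' hx'
    have h1 := hR2 ζ hζ q q x hx x' hx'
    rwa [inter_self] at h1
  have hR4 : ∀ Y ∈ 𝒴, ∀ ζ ∈ PP Y, ∀ q, Rz g ζ q ⊆ PZ c Y fun a => q ∈ E a := by
    intro Y hY ζ hζ q
    exact Rz_sub (P := fun q => PZ c Y fun a => q ∈ E a) ((memPP Y ζ).1 hζ) q
  have hR5 : ∀ Y ∈ 𝒴, ∀ ζ ∈ PP Y, ∀ q, (Rz g ζ q).card ≤ 4 ^ (Aq E c q).card := by
    intro Y hY ζ hζ q
    rw [← (f2 Y ((mem𝒴 Y).1 hY)).1 q]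
    exact card_le_card (hR4 Y hY ζ hζ q)
  -- the full ones
  have hPU : ∀ Y ∈ 𝒴, ∀ ζ ∈ PP Y, ζ ∈ 𝒰 := by
    intro Y hY ζ hζ
    rw [mem𝒰]
    have h1 := (memPP Y ζ).1 hζ
    constructor
    · intro k
      exact PZ_sub E c Y (g k) (h1 k)
    · intro k l _
      exact (f2 Y ((mem𝒴 Y).1 hY)).2 (g k) (g l) (ζ k) (h1 k) (ζ l) (h1 l)
  have hfullU : 𝒰.filter full = 𝒴.biUnion fun Y => (PP Y).filter full := by
    ext ζ
    rw [mem_filter, mem_biUnion]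
    constructor
    · rintro ⟨h1, h2⟩
      obtain ⟨Y, hY1, hY2⟩ := f1 (Rz g ζ) (hR1 ζ h1) h2 (hR2 ζ h1)
      refine ⟨Y, (mem𝒴 Y).2 hY1, ?_⟩
      rw [mem_filter, memPP]
      refine ⟨fun k => ?_, h2⟩
      rw [← hY2 (g k)]
      exact mem_Rz g ζ k
    · rintro ⟨Y, hY, h1⟩
      rw [mem_filter] at h1
      exact ⟨hPU Y hY ζ h1.1, h1.2⟩
  have hdisj : ∀ Y ∈ 𝒴, ∀ Y' ∈ 𝒴, Y ≠ Y' → Disjoint ((PP Y).filter full) ((PP Y').filter full) := by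
    intro Y hY Y' hY' hne
    rw [Finset.disjoint_left]
    intro ζ h1 h2
    rw [mem_filter] at h1 h2
    apply hne
    refine f3 Y Y' ((mem𝒴 Y).1 hY) ((mem𝒴 Y').1 hY') fun q => ?_
    have h3 : Rz g ζ q = PZ c Y fun a => q ∈ E a := by
      refine eq_of_subset_of_card_le (hR4 Y hY ζ h1.1 q) ?_
      rw [(f2 Y ((mem𝒴 Y).1 hY)).1 q, h1.2 q]
    have h4 : Rz g ζ q = PZ c Y' fun a => q ∈ E a := by
      refine eq_of_subset_of_card_le (hR4 Y' hY' ζ h2.1 q) ?_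
      rw [(f2 Y' ((mem𝒴 Y').1 hY')).1 q, h2.2 q]
    rw [← h3, ← h4]
  have e1 : ∑ ζ ∈ 𝒰, F ζ = ∑ Y ∈ 𝒴, ∑ ζ ∈ (PP Y).filter full, F ζ +
      ∑ ζ ∈ 𝒰.filter (fun ζ => ¬ full ζ), F ζ := by
    rw [← sum_filter_add_sum_filter_not 𝒰 full, hfullU, sum_biUnion]
    intro Y hY Y' hY' hne
    exact hdisj Y hY Y' hY' hne
  have e2 : ∑ Y ∈ 𝒴, ∑ ζ ∈ PP Y, F ζ = ∑ Y ∈ 𝒴, ∑ ζ ∈ (PP Y).filter full, F ζ +
      ∑ Y ∈ 𝒴, ∑ ζ ∈ (PP Y).filter (fun ζ => ¬ full ζ), F ζ := by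
    rw [← sum_add_distrib]
    refine sum_congr rfl fun Y _ => ?_
    rw [sum_filter_add_sum_filter_not]
  have hG : ∀ ζ, (∀ q, (Rz g ζ q).card ≤ 4 ^ (Aq E c q).card) → ¬ full ζ → Rz g ζ ∈ GG E c := by
    intro ζ h1 h2
    unfold GG
    rw [mem_filter]
    refine ⟨mem_univ _, h1, ?_⟩
    rw [hfull] at h2
    simp only [not_forall] at h2
    obtain ⟨q, hq⟩ := h2
    exact ⟨q, lt_of_le_of_ne (h1 q) hq⟩
  have b1 : |∑ ζ ∈ 𝒰.filter (fun ζ => ¬ full ζ), F ζ| ≤ (GG E c).card * B := by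
    refine sum_le E c g F M L hF hL _ ?_
    intro ζ hζ
    rw [mem_filter] at hζ
    exact hG ζ (hR3 ζ hζ.1) hζ.2
  have b2 : |∑ Y ∈ 𝒴, ∑ ζ ∈ (PP Y).filter (fun ζ => ¬ full ζ), F ζ| ≤
      𝒴.card * ((GG E c).card * B) := by
    refine (abs_sum_le_sum_abs _ _).trans ?_
    rw [← nsmul_eq_mul, ← sum_const]
    refine sum_le_sum fun Y hY => ?_
    refine sum_le E c g F M L hF hL _ ?_
    intro ζ hζ
    rw [mem_filter] at hζ
    exact hG ζ (hR5 Y hY ζ hζ.1) hζ.2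
  have e3 : ∑ ζ ∈ 𝒰, F ζ - ∑ Y ∈ 𝒴, ∑ ζ ∈ PP Y, F ζ =
      ∑ ζ ∈ 𝒰.filter (fun ζ => ¬ full ζ), F ζ -
      ∑ Y ∈ 𝒴, ∑ ζ ∈ (PP Y).filter (fun ζ => ¬ full ζ), F ζ := by
    rw [e1, e2]
    ring
  rw [e3]
  refine (abs_sub _ _).trans ((add_le_add b1 b2).trans (le_of_eq ?_))
  rw [hB]
  ring

end Pool.Agent.N7.GK.Split
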